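import Pool.Agent.Helper13.BM.Moat

/-!
# Project GT (MP_eb515b_lc): the plane

A configuration of the plane with labels `l : ZMod 3` which satisfies the face rule and in which at every corner of a box
one of the two sides is tight contains arbitrarily long straight segments on which `l` is constant.
-/

set_option autoImplicit false

namespace GTP

open NIC BMP

/-- the rules on the plane -/
structure GConf (l : ℤ → ℤ → ZMod 3) : Prop where
  face : ∀ x y, Face (l x y) (l (x + 1) y) (l (x + 1) (y + 1)) (l x (y + 1))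
  t2 : ∀ x y s t, Sg s → Sg t → l (x + s) y = l x y + 1 → l x (y + t) = l x y + 1 →
    l (x + s + s) y = l x y + 2 ∨ l x (y + t + t) = l x y + 2

/-- every straight segment with `L + 1` cells is not constant -/
structure Blk (l : ℤ → ℤ → ZMod 3) (L : ℕ) : Prop where
  bx : ∀ x y, ∃ i : ℕ, i ≤ L ∧ l (x + i) y ≠ l x y
  by' : ∀ x y, ∃ i : ℕ, i ≤ L ∧ l x (y + i) ≠ l x y

variable {l : ℤ → ℤ → ZMod 3} {L : ℕ}

theorem Blk.swap (h : Blk l L) : Blk (fun x y => l y x) L where
  bx x y := h.by' y x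
  by' x y := h.bx y x

theorem Blk.noy (h : Blk l L) {x y t : ℤ} (ht : Sg t) {c : ZMod 3}
    (hc : ∀ j : ℕ, j ≤ L → l x (y + t * j) = c) : False := by
  rcases ht with ht | ht <;> subst ht
  · obtain ⟨i, hi, hn⟩ := h.by' x y
    apply hn
    have h1 := hc i hi
    have h2 := hc 0 (Nat.zero_le _)
    rw [one_mul] at h1
    rw [h1, ← h2]
    simp
  · obtain ⟨i, hi, hn⟩ := h.by' x (y - L)
    apply hn
    have h1 := hc (L - i) (by omega)
    have h2 := hc L le_rfl
    rw [show y - (L : ℤ) = y + -1 * (L : ℤ) by ring, h2, ← h1]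
    congr 1
    push_cast [hi]
    ring

/-- an integer height function with the tightness rule -/
structure GH (H : ℤ → ℤ → ℤ) (L : ℕ) : Prop where
  ht : Ht H
  t2 : ∀ x y s t, Sg s → Sg t → H (x + s) y = H x y + 1 → H x (y + t) = H x y + 1 →
    H (x + s + s) y = H x y + 2 ∨ H x (y + t + t) = H x y + 2
  nx : ∀ x y s, Sg s → ¬ ∀ j : ℕ, j ≤ L → H (x + s * j) y = H x y
  ny : ∀ x y t, Sg t → ¬ ∀ j : ℕ, j ≤ L → H x (y + t * j) = H x y

variable {H : ℤ → ℤ → ℤ}

theorem GH.swap (h : GH H L) : GH (fun x y => H y x) L where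
  ht := h.ht.swap
  t2 x y s t hs ht h1 h2 := (h.t2 y x t s ht hs h2 h1).symm
  nx x y s hs := h.ny y x s hs
  ny x y s hs := h.nx y x s hs

/-- a finite run in one direction forces finite perpendicular runs -/
theorem GH.fin (h : GH H L) {m x y s t : ℤ} (hs : Sg s) (ht : Sg t) {p : ℕ}
    (hx : ∀ i : ℕ, i ≤ p → H (x + s * i) y ≤ m) (hn : ¬ H (x + s * (p + 1)) y ≤ m) :
    ∃ q : ℕ, (∀ j : ℕ, j ≤ q → H x (y + t * j) ≤ m) ∧ ¬ H x (y + t * (q + 1)) ≤ m := by
  rcases run_or (fun j : ℕ => H x (y + t * j) ≤ m) (by simpa using hx 0 (Nat.zero_le _)) with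
    h1 | ⟨q, hq, hqn⟩
  · exfalso
    refine h.ny (x + s * p) y t ht fun j hj => ?_
    have h2 := h.ht.face (m := m) hs ht (p := p) (q := j) hx (fun i _ => h1 i) hn
    have h3 := (h2 j le_rfl).1
    have h4 := (h2 0 (Nat.zero_le _)).1
    simp only [Nat.cast_zero, mul_zero, add_zero] at h4
    rw [h3, h4]
  · refine ⟨q, hq, ?_⟩
    push_cast at hqn
    exact hqn

/-- the runs of the box of level `m` around `(x, y)` -/
structure Runs (H : ℤ → ℤ → ℤ) (x y m : ℤ) (P Q : ℤ → ℕ) : Prop where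
  px : ∀ s, Sg s → ∀ i : ℕ, i ≤ P s → H (x + s * i) y ≤ m
  nx : ∀ s, Sg s → ¬ H (x + s * (P s + 1)) y ≤ m
  py : ∀ t, Sg t → ∀ j : ℕ, j ≤ Q t → H x (y + t * j) ≤ m
  ny : ∀ t, Sg t → ¬ H x (y + t * (Q t + 1)) ≤ m

theorem Runs.swap {x y m : ℤ} {P Q : ℤ → ℕ} (r : Runs H x y m P Q) :
    Runs (fun x y => H y x) y x m Q P where
  px := r.py
  nx := r.ny
  py := r.px
  ny := r.nx

/-- the sides of a box are short -/
theorem GH.short (h : GH H L) {x y m : ℤ} {P Q : ℤ → ℕ} (r : Runs H x y m P Q) {t : ℤ} (ht : Sg t) :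
    Q t < L := by
  by_contra hc
  have hs : Sg 1 := Or.inl rfl
  refine h.ny (x + 1 * P 1) y t ht fun j hj => ?_
  have h2 := h.ht.face (m := m) hs ht (p := P 1) (q := Q t) (r.px 1 hs) (r.py t ht) (r.nx 1 hs)
  have h3 := (h2 j (by omega)).1
  have h4 := (h2 0 (Nat.zero_le _)).1
  simp only [Nat.cast_zero, mul_zero, add_zero] at h4
  rw [h3, h4]

/-- a side which is tight at a corner is tight -/
theorem Runs.tight (h : Ht H) {x y m : ℤ} {P Q : ℤ → ℕ} (r : Runs H x y m P Q) {s t : ℤ} (hs : Sg s)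
    (ht : Sg t) (h2 : H (x + s * (P s + 2)) (y + t * Q t) = m + 2) :
    ¬ H (x + s * (P s + 2)) y ≤ m + 1 := by
  intro hc
  have h3 := h.face (m := m) hs ht (p := P s) (q := Q t) (r.px s hs) (r.py t ht) (r.nx s hs)
  have h4 := (h3 0 (Nat.zero_le _)).2
  simp only [Nat.cast_zero, mul_zero, add_zero] at h4
  have h5 := (h.sq (m + 1)).box hs ht (p := P s + 2) (q := Q t) (x := x) (y := y)
    (fun i hi => by
      rcases Nat.lt_or_ge i (P s + 1) with h6 | h6
      · have := r.px s hs i (by omega)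
        omega
      · rcases Nat.lt_or_ge i (P s + 2) with h7 | h7
        · have e : i = P s + 1 := by omega
          subst e
          push_cast
          omega
        · have e : i = P s + 2 := by omega
          subst e
          push_cast
          exact hc)
    (fun j hj => by
      have := r.py t ht j hj
      omega) (Q t) le_rfl (P s + 2) le_rfl
  push_cast at h5
  omega

/-- the corner rule -/
theorem GH.corner (h : GH H L) {x y m : ℤ} {P Q : ℤ → ℕ} (r : Runs H x y m P Q) {s t : ℤ} (hs : Sg s)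
    (ht : Sg t) : ¬ H (x + s * (P s + 2)) y ≤ m + 1 ∨ ¬ H x (y + t * (Q t + 2)) ≤ m + 1 := by
  have h1 := h.ht.face (m := m) hs ht (p := P s) (q := Q t) (r.px s hs) (r.py t ht) (r.nx s hs)
    (Q t) le_rfl
  have h2 := h.ht.swap.face (m := m) ht hs (p := Q t) (q := P s) (r.py t ht) (r.px s hs) (r.ny t ht)
    (P s) le_rfl
  have h3 := h.t2 (x + s * P s) (y + t * Q t) s t hs ht
    (by
      rw [show x + s * (P s : ℤ) + s = x + s * (P s + 1) by ring]
      omega)
    (by
      rw [show y + t * (Q t : ℤ) + t = y + t * (Q t + 1) by ring]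
      omega)
  rcases h3 with h3 | h3
  · left
    refine r.tight h.ht hs ht ?_
    rw [show x + s * ((P s : ℤ) + 2) = x + s * P s + s + s by ring]
    omega
  · right
    refine r.swap.tight h.ht.swap ht hs ?_
    rw [show y + t * ((Q t : ℤ) + 2) = y + t * Q t + t + t by ring]
    omega

/-- the next box, if the two sides in the first direction are tight -/
theorem GH.next1 (h : GH H L) {x y m : ℤ} {P Q : ℤ → ℕ} (r : Runs H x y m P Q)
    (hX : ∀ s, Sg s → ¬ H (x + s * (P s + 2)) y ≤ m + 1) :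
    ∃ P' Q' : ℤ → ℕ, Runs H x y (m + 1) P' Q' ∧ (∀ s, Sg s → P s < P' s) ∧ ∀ t, Sg t → Q t < Q' t := by
  have hface : ∀ s, Sg s → H (x + s * (P s + 1)) y = m + 1 := fun s hs => by
    have h2 := (h.ht.face (m := m) hs (t := 1) (Or.inl rfl) (p := P s) (q := 0) (r.px s hs)
      (fun j hj => r.py 1 (Or.inl rfl) j (by omega)) (r.nx s hs) 0 le_rfl).2
    simpa using h2
  have hfy : ∀ t, Sg t → H x (y + t * (Q t + 1)) = m + 1 := fun t ht => by
    have h2 := (h.ht.swap.face (m := m) ht (t := 1) (Or.inl rfl) (p := Q t) (q := 0) (r.py t ht)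
      (fun j hj => r.px 1 (Or.inl rfl) j (by omega)) (r.ny t ht) 0 le_rfl).2
    simpa using h2
  have hpx : ∀ s, Sg s → ∀ i : ℕ, i ≤ P s + 1 → H (x + s * i) y ≤ m + 1 := fun s hs i hi => by
    rcases Nat.lt_or_ge i (P s + 1) with h6 | h6
    · have := r.px s hs i (by omega)
      omega
    · have e : i = P s + 1 := by omega
      subst e
      push_cast
      exact (hface s hs).le
  have hnx : ∀ s, Sg s → ¬ H (x + s * (((P s + 1 : ℕ) : ℤ) + 1)) y ≤ m + 1 := fun s hs => by
    have := hX s hs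
    rw [show x + s * (((P s + 1 : ℕ) : ℤ) + 1) = x + s * (P s + 2) by push_cast; ring]
    exact this
  have hq : ∀ t, ∃ q : ℕ, Sg t → (∀ j : ℕ, j ≤ q → H x (y + t * j) ≤ m + 1) ∧
      ¬ H x (y + t * (q + 1)) ≤ m + 1 := fun t => by
    by_cases ht : Sg t
    · obtain ⟨q, h1, h2⟩ := h.fin (m := m + 1) (x := x) (y := y) (s := 1) (t := t) (Or.inl rfl) ht
        (hpx 1 (Or.inl rfl)) (hnx 1 (Or.inl rfl))
      exact ⟨q, fun _ => ⟨h1, h2⟩⟩
    · exact ⟨0, fun h => absurd h ht⟩
  choose Q' hQ' using hq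
  refine ⟨fun s => P s + 1, Q', ⟨hpx, hnx, fun t ht => (hQ' t ht).1, fun t ht => (hQ' t ht).2⟩,
    fun s _ => Nat.lt_succ_self _, fun t ht => ?_⟩
  by_contra hc
  obtain ⟨h1, h2⟩ := hQ' t ht
  apply h2
  rcases Nat.lt_or_ge (Q' t) (Q t) with h3 | h3
  · have := r.py t ht (Q' t + 1) (by omega)
    push_cast at this
    omega
  · have e : Q' t = Q t := by omega
    rw [e]
    exact (hfy t ht).le

theorem GH.next (h : GH H L) {x y m : ℤ} {P Q : ℤ → ℕ} (r : Runs H x y m P Q) :
    ∃ P' Q' : ℤ → ℕ, Runs H x y (m + 1) P' Q' ∧ ∀ t, Sg t → Q t < Q' t := by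
  by_cases hX : ∀ s, Sg s → ¬ H (x + s * (P s + 2)) y ≤ m + 1
  · obtain ⟨P', Q', r', -, h2⟩ := h.next1 r hX
    exact ⟨P', Q', r', h2⟩
  · push Not at hX
    obtain ⟨s, hs, hX⟩ := hX
    have hY : ∀ t, Sg t → ¬ H x (y + t * (Q t + 2)) ≤ m + 1 := fun t ht =>
      (h.corner r hs ht).resolve_left fun hc => hc hX
    obtain ⟨Q', P', r', h1, -⟩ := h.swap.next1 r.swap hY
    exact ⟨P', Q', r'.swap, h1⟩

theorem GH.chain (h : GH H L) {x y m : ℤ} {P Q : ℤ → ℕ} (r : Runs H x y m P Q) (n : ℕ) :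
    ∃ (m' : ℤ) (P' Q' : ℤ → ℕ), Runs H x y m' P' Q' ∧ n ≤ Q' 1 := by
  induction n with
  | zero => exact ⟨m, P, Q, r, Nat.zero_le _⟩
  | succ n ih =>
    obtain ⟨m', P', Q', r', h1⟩ := ih
    obtain ⟨P'', Q'', r'', h2⟩ := h.next r'
    exact ⟨m' + 1, P'', Q'', r'', by
      have := h2 1 (Or.inl rfl)
      omega⟩

/-- the first box -/
theorem GH.start (h : GH H L) {x y s : ℤ} (hs : Sg s) (h1 : H (x + s) y = H x y + 1) :
    ∃ P Q : ℤ → ℕ, Runs H x y (H x y) P Q := by
  have hq : ∀ t, ∃ q : ℕ, Sg t → (∀ j : ℕ, j ≤ q → H x (y + t * j) ≤ H x y) ∧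
      ¬ H x (y + t * (q + 1)) ≤ H x y := fun t => by
    by_cases ht : Sg t
    · obtain ⟨q, h1, h2⟩ := h.fin (m := H x y) (x := x) (y := y) (s := s) (t := t) hs ht (p := 0)
        (fun i hi => by
          have e : i = 0 := by omega
          subst e
          simp)
        (by
          simp only [Nat.cast_zero, zero_add, mul_one]
          omega)
      exact ⟨q, fun _ => ⟨h1, h2⟩⟩
    · exact ⟨0, fun h => absurd h ht⟩
  choose Q hQ using hq
  have hp : ∀ t, ∃ q : ℕ, Sg t → (∀ j : ℕ, j ≤ q → H (x + t * j) y ≤ H x y) ∧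
      ¬ H (x + t * (q + 1)) y ≤ H x y := fun t => by
    by_cases ht : Sg t
    · obtain ⟨q, h1, h2⟩ := h.swap.fin (m := H x y) (x := y) (y := x) (s := 1) (t := t) (Or.inl rfl)
        ht (p := Q 1) ((hQ 1 (Or.inl rfl)).1) ((hQ 1 (Or.inl rfl)).2)
      exact ⟨q, fun _ => ⟨h1, h2⟩⟩
    · exact ⟨0, fun h => absurd h ht⟩
  choose P hP using hp
  exact ⟨P, Q, fun s hs => (hP s hs).1, fun s hs => (hP s hs).2, fun s hs => (hQ s hs).1,
    fun s hs => (hQ s hs).2⟩

theorem GH.false (h : GH H L) : False := by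
  have hs : Sg 1 := Or.inl rfl
  -- an exit in the first row
  have hex : ∃ x s, Sg s ∧ H (x + s) 0 = H x 0 + 1 := by
    by_contra hc
    push Not at hc
    refine h.nx 0 0 1 hs fun j _ => ?_
    induction j with
    | zero => simp
    | succ j ih =>
      have e : (0 : ℤ) + 1 * ((j + 1 : ℕ) : ℤ) = 0 + 1 * (j : ℤ) + 1 := by
        push_cast
        ring
      rw [e]
      have h1 := hc (0 + 1 * (j : ℤ)) 1 hs
      have h2 := hc (0 + 1 * (j : ℤ) + 1) (-1) (Or.inr rfl)
      have h3 := h.ht.lipx (0 + 1 * (j : ℤ)) 0 1 hs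
      have h4 := h.ht.lipx (0 + 1 * (j : ℤ) + 1) 0 (-1) (Or.inr rfl)
      rw [show (0 : ℤ) + 1 * (j : ℤ) + 1 + -1 = 0 + 1 * (j : ℤ) by ring] at h2 h4
      omega
  obtain ⟨x, s, hs', h1⟩ := hex
  obtain ⟨P, Q, r⟩ := h.start hs' h1
  obtain ⟨m', P', Q', r', h2⟩ := h.chain r L
  have := h.short r' hs
  omega

/-- There is no blocked configuration. -/
theorem no_blocked (h : GConf l) (hb : Blk l L) : False := by
  obtain ⟨H, hl, hx, hy⟩ := exists_lift l h.face
  have face' : ∀ (x y s t : ℤ), Sg s → Sg t →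
      Face (l x y) (l (x + s) y) (l (x + s) (y + t)) (l x (y + t)) := by
    intro x y s t hs ht
    rcases hs with hs | hs <;> rcases ht with ht | ht <;> subst hs <;> subst ht
    · exact h.face x y
    · have := h.face x (y + -1)
      rw [show y + -1 + 1 = y by ring] at this
      exact this.rot.rot.rot.flip
    · have := h.face (x + -1) y
      rw [show x + -1 + 1 = x by ring] at this
      exact this.rot.flip
    · have := h.face (x + -1) (y + -1)
      rw [show x + -1 + 1 = x by ring, show y + -1 + 1 = y by ring] at this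
      exact this.rot.rot
  have hx' : ∀ x y s, Sg s → H (x + s) y = H x y + dl (l (x + s) y - l x y) := by
    rintro x y s (hs | hs) <;> subst hs
    · exact hx x y
    · have := hx (x + -1) y
      rw [show x + -1 + 1 = x by ring] at this
      rw [this, ← neg_sub (l x y), dl_neg]
      ring
  have hy' : ∀ x y s, Sg s → H x (y + s) = H x y + dl (l x (y + s) - l x y) := by
    rintro x y s (hs | hs) <;> subst hs
    · exact hy x y
    · have := hy x (y + -1)
      rw [show y + -1 + 1 = y by ring] at this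
      rw [this, ← neg_sub (l x y), dl_neg]
      ring
  have hd : ∀ x y s t, Sg s → Sg t →
      H (x + s) (y + t) = H x y + (dl (l (x + s) y - l x y) + dl (l (x + s) (y + t) - l (x + s) y)) := by
    intro x y s t hs ht
    rw [hy' (x + s) y t ht, hx' x y s hs]
    ring
  have hht : Ht H := by
    refine ⟨?_, ?_, ?_⟩
    · intro x y s hs
      rw [hx' x y s hs]
      have := dl_le (l (x + s) y - l x y)
      omega
    · intro x y s hs
      rw [hy' x y s hs]
      have := dl_le (l x (y + s) - l x y)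
      omega
    · intro m
      constructor
      · intro x y s t hs ht a1 a2 a3
        have hF := (face' x y s t hs ht).three
        rw [hx' x y s hs] at a2
        rw [hy' x y t ht] at a3
        rw [hd x y s t hs ht]
        omega
      · intro x y s t hs ht a1 a2
        have hF := (face' x y s t hs ht).diag
        rw [hd x y s t hs ht] at a2
        rw [hx' x y s hs]
        omega
  have step1 : ∀ {x y x' y' : ℤ}, H x' y' = H x y + 1 → l x' y' = l x y + 1 := by
    intro x y x' y' e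
    rw [← hl, ← hl, e]
    push_cast
    rfl
  have dl1 : dl 1 = 1 := by decide
  refine GH.false (H := H) (L := L) ⟨hht, ?_, ?_, ?_⟩
  · intro x y s t hs ht h1 h2
    have e1 := step1 h1
    have e2 := step1 h2
    rcases h.t2 x y s t hs ht e1 e2 with h3 | h3
    · left
      rw [hx' (x + s) y s hs, h1, h3, e1, show l x y + 2 - (l x y + 1) = 1 by ring, dl1]
      ring
    · right
      rw [hy' x (y + t) t ht, h2, h3, e2, show l x y + 2 - (l x y + 1) = 1 by ring, dl1]
      ring
  · intro x y s hs hc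
    refine hb.swap.noy (x := y) (y := x) hs (c := l x y) fun j hj => ?_
    rw [← hl, ← hl, hc j hj]
  · intro x y t ht hc
    refine hb.noy (x := x) (y := y) ht (c := l x y) fun j hj => ?_
    rw [← hl, ← hl, hc j hj]

end GTP
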