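import Pool.Agent.Helper20.GT.Defs

/-!
# Project GT (MP_eb515b_lc): covariance and measurability of the stage functions
-/

set_option autoImplicit false

namespace GTm

open EB NI BM

variable {d : ℕ} {κ : ℕ → Gd d → Option (ℕ × Gd d)} {s : ℕ → ℕ} {o : ℕ → Fin d → ℤ}

/-- `Good` in terms of the two cubes -/
def GoodP {d : ℕ} (s : ℕ) (o : Fin d → ℤ) (g : Gd d) (a b : Option (ℕ × Gd d)) : Prop :=
  ∃ N m N' m', a = some (N, m) ∧ b = some (N', m') ∧
    ∀ g', Sh 0 N (g' - m) → Cell s o (g - m) (g' - m) → Sh 0 N' (g' - m')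

theorem good_iff {κ κ' : Gd d → Option (ℕ × Gd d)} {s : ℕ} {o : Fin d → ℤ} {g : Gd d} :
    Good κ κ' s o g ↔ GoodP s o g (κ g) (κ' g) := Iff.rfl

open Classical in
/-- one step of the height -/
noncomputable def stepH {d : ℕ} (s : ℕ) (o : Fin d → ℤ) (g : Gd d) (a b : Option (ℕ × Gd d))
    (y : ℤ) : ℤ :=
  match a with
  | none => 0
  | some (N, m) => Finset.univ.fold max ((if GoodP s o g a b then y else 0) - 3 * d)
      fun k : Fin d => fk N s (o k) k (g k - m k)

open Classical in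
/-- one step of the phase -/
noncomputable def stepP {d : ℕ} (s : ℕ) (o : Fin d → ℤ) (g : Gd d) (t : ℤ)
    (a b : Option (ℕ × Gd d)) (y : ℤ) : ℤ :=
  if GoodP s o g a b ∧ t ≤ 2 - 3 * d then y else cs a

theorem Hs_succ (i : ℕ) (g : Gd d) : Hs κ s o (i + 1) g =
    stepH (s (i + 1)) (o (i + 1)) g (κ (i + 1) g) (κ i g) (Hs κ s o i g) := by
  rw [Hs]
  rfl

theorem Ph_succ (i : ℕ) (g : Gd d) (t : ℤ) : Ph κ s o (i + 1) g t =
    stepP (s (i + 1)) (o (i + 1)) g t (κ (i + 1) g) (κ i g) (Ph κ s o i g (t + 3 * d)) := by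
  rw [Ph]
  rfl

/-- the shift of a cube -/
def shc {d : ℕ} (v : Gd d) (p : Option (ℕ × Gd d)) : Option (ℕ × Gd d) :=
  p.map fun p => (p.1, p.2 - v)

theorem goodP_shift {s : ℕ} {o : Fin d → ℤ} {g v : Gd d} {a b : Option (ℕ × Gd d)} :
    GoodP s o g (shc v a) (shc v b) ↔ GoodP s o (g + v) a b := by
  constructor
  · rintro ⟨N, m, N', m', h1, h2, h3⟩
    obtain _ | ⟨N1, m1⟩ := a
    · simp [shc] at h1
    obtain _ | ⟨N2, m2⟩ := b
    · simp [shc] at h2
    simp only [shc, Option.map_some, Option.some.injEq, Prod.mk.injEq] at h1 h2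
    obtain ⟨rfl, rfl⟩ := h1
    obtain ⟨rfl, rfl⟩ := h2
    refine ⟨N1, m1, N2, m2, rfl, rfl, fun g' h4 h5 => ?_⟩
    have h6 := h3 (g' - v) (by
      rw [show g' - v - (m1 - v) = g' - m1 by abel]
      exact h4) (by
      rw [show g' - v - (m1 - v) = g' - m1 by abel, show g - (m1 - v) = g + v - m1 by abel]
      exact h5)
    rwa [show g' - v - (m2 - v) = g' - m2 by abel] at h6
  · rintro ⟨N, m, N', m', rfl, rfl, h3⟩
    refine ⟨N, m - v, N', m' - v, rfl, rfl, fun g' h4 h5 => ?_⟩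
    have h6 := h3 (g' + v) (by
      rw [show g' + v - m = g' - (m - v) by abel]
      exact h4) (by
      rw [show g' + v - m = g' - (m - v) by abel, show g + v - m = g - (m - v) by abel]
      exact h5)
    rwa [show g' + v - m' = g' - (m' - v) by abel] at h6

theorem stepH_shift {s : ℕ} {o : Fin d → ℤ} {g v : Gd d} {a b : Option (ℕ × Gd d)} {y : ℤ} :
    stepH s o g (shc v a) (shc v b) y = stepH s o (g + v) a b y := by
  classical
  obtain _ | ⟨N, m⟩ := a
  · rfl
  · have hG := goodP_shift (s := s) (o := o) (g := g) (v := v) (a := some (N, m)) (b := b)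
    have e : ∀ k, g k - (m - v) k = (g + v) k - m k := fun k => by
      simp only [Pi.sub_apply, Pi.add_apply]
      ring
    by_cases hc : GoodP s o (g + v) (some (N, m)) b
    · have hc' := hG.2 hc
      change Finset.univ.fold max ((if GoodP s o g (shc v (some (N, m))) (shc v b) then y else 0) - 3 * (d : ℤ))
        (fun k : Fin d => fk N s (o k) k (g k - (m - v) k)) =
        Finset.univ.fold max ((if GoodP s o (g + v) (some (N, m)) b then y else 0) - 3 * (d : ℤ))
        (fun k : Fin d => fk N s (o k) k ((g + v) k - m k))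
      rw [if_pos hc, if_pos hc']
      simp only [e]
    · have hc' : ¬ GoodP s o g (shc v (some (N, m))) (shc v b) := fun h => hc (hG.1 h)
      change Finset.univ.fold max ((if GoodP s o g (shc v (some (N, m))) (shc v b) then y else 0) - 3 * (d : ℤ))
        (fun k : Fin d => fk N s (o k) k (g k - (m - v) k)) =
        Finset.univ.fold max ((if GoodP s o (g + v) (some (N, m)) b then y else 0) - 3 * (d : ℤ))
        (fun k : Fin d => fk N s (o k) k ((g + v) k - m k))
      rw [if_neg hc, if_neg hc']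
      simp only [e]

theorem Hs_shift {κ' : ℕ → Gd d → Option (ℕ × Gd d)} (v : Gd d)
    (h : ∀ i g, κ' i g = (κ i (g + v)).map fun p => (p.1, p.2 - v)) (i : ℕ) (g : Gd d) :
    Hs κ' s o i g = Hs κ s o i (g + v) := by
  induction i with
  | zero => rfl
  | succ i ih =>
    rw [Hs_succ, Hs_succ, ih, h (i + 1) g, h i g]
    exact stepH_shift

theorem Ph_shift {κ' : ℕ → Gd d → Option (ℕ × Gd d)} (v : Gd d)
    (h : ∀ i g, κ' i g = (κ i (g + v)).map fun p => (p.1, p.2 - v)) (i : ℕ) (g : Gd d) (t : ℤ)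
    (hn : (κ i (g + v)).isSome) : Ph κ' s o i g t = Ph κ s o i (g + v) t - ∑ k, v k := by
  have hc : ∀ i, (κ i (g + v)).isSome → cs (κ' i g) = cs (κ i (g + v)) - ∑ k, v k := by
    intro i hi
    rw [h]
    obtain ⟨⟨N, m⟩, e⟩ := Option.isSome_iff_exists.1 hi
    rw [e]
    simp only [Option.map_some, cs, Pi.sub_apply, Finset.sum_sub_distrib]
  induction i generalizing t with
  | zero => exact hc 0 hn
  | succ i ih =>
    have hG : GoodP (s (i + 1)) (o (i + 1)) g (κ' (i + 1) g) (κ' i g) ↔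
        GoodP (s (i + 1)) (o (i + 1)) (g + v) (κ (i + 1) (g + v)) (κ i (g + v)) := by
      rw [h, h]
      exact goodP_shift
    rw [Ph_succ, Ph_succ]
    unfold stepP
    by_cases hc' : GoodP (s (i + 1)) (o (i + 1)) (g + v) (κ (i + 1) (g + v)) (κ i (g + v)) ∧
        t ≤ 2 - 3 * d
    · rw [if_pos hc', if_pos ⟨hG.2 hc'.1, hc'.2⟩]
      obtain ⟨N, m, N', m', h1, h2, h3⟩ := hc'.1
      exact ih _ (by rw [h2]; rfl)
    · rw [if_neg hc', if_neg fun hh => hc' ⟨hG.1 hh.1, hh.2⟩]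
      exact hc _ hn

/-- covariance -/
theorem lb_shift {κ' : ℕ → Gd d → Option (ℕ × Gd d)} (v : Gd d)
    (h : ∀ i g, κ' i g = (κ i (g + v)).map fun p => (p.1, p.2 - v)) (i : ℕ) (g : Gd d)
    (hn : (κ i (g + v)).isSome) :
    ((((Hs κ' s o i g : ℤ) : ZMod 3), NI.par (∑ k, g k - Ph κ' s o i g (Hs κ' s o i g))) : Lab) =
      (((Hs κ s o i (g + v) : ℤ) : ZMod 3),
        NI.par (∑ k, (g + v) k - Ph κ s o i (g + v) (Hs κ s o i (g + v)))) := by
  rw [Hs_shift v h, Ph_shift v h _ _ _ hn]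
  congr 2
  simp only [Pi.add_apply, Finset.sum_add_distrib]
  ring

variable {X : Type} [MeasurableSpace X]

theorem Hs_ms {κ : X → ℕ → Gd d → Option (ℕ × Gd d)} (h : ∀ i g, Ms fun x => κ x i g) (i : ℕ)
    (g : Gd d) : Ms fun x => Hs (κ x) s o i g := by
  induction i with
  | zero => exact Ms.const (0 : ℤ)
  | succ i ih =>
    simp only [Hs_succ]
    exact ((h (i + 1) g).pair (h i g)).map2 ih
      (fun (p : Option (ℕ × Gd d) × Option (ℕ × Gd d)) (y : ℤ) =>
        stepH (s (i + 1)) (o (i + 1)) g p.1 p.2 y)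

theorem Ph_ms {κ : X → ℕ → Gd d → Option (ℕ × Gd d)} (h : ∀ i g, Ms fun x => κ x i g) (i : ℕ)
    (g : Gd d) (t : ℤ) : Ms fun x => Ph (κ x) s o i g t := by
  induction i generalizing t with
  | zero => exact (h 0 g).comp cs
  | succ i ih =>
    simp only [Ph_succ]
    exact ((h (i + 1) g).pair (h i g)).map2 (ih (t + 3 * d))
      (fun (p : Option (ℕ × Gd d) × Option (ℕ × Gd d)) (y : ℤ) =>
        stepP (s (i + 1)) (o (i + 1)) g t p.1 p.2 y)

/-- measurability -/
theorem lb_ms {κ : X → ℕ → Gd d → Option (ℕ × Gd d)} (h : ∀ i g, Ms fun x => κ x i g) (i : ℕ)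
    (g : Gd d) : Ms fun x =>
      ((((Hs (κ x) s o i g : ℤ) : ZMod 3),
        NI.par (∑ k, g k - Ph (κ x) s o i g (Hs (κ x) s o i g))) : Lab) :=
  (Hs_ms (s := s) (o := o) h i g).bind (F := fun t x =>
    (((t : ZMod 3), NI.par (∑ k, g k - Ph (κ x) s o i g t)) : Lab)) fun t =>
      (Ph_ms h i g t).comp fun y => (((t : ZMod 3), NI.par (∑ k, g k - y)) : Lab)

/-- covariance for `Lb` -/
theorem stage_shift' {κ : ℕ → Gd d → Option (ℕ × Gd d)} {κ' : ℕ → Gd d → Option (ℕ × Gd d)} (v : Gd d)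
    (h : ∀ i g, κ' i g = (κ i (g + v)).map fun p => (p.1, p.2 - v)) (i : ℕ) (g : Gd d)
    (hn : (κ i (g + v)).isSome) : Lb κ' s o i g = Lb κ s o i (g + v) :=
  lb_shift v h i g hn

/-- measurability for `Lb` -/
theorem stage_ms' {κ : X → ℕ → Gd d → Option (ℕ × Gd d)} (h : ∀ i g, Ms fun x => κ x i g) (i : ℕ)
    (g : Gd d) : Ms fun x => Lb (κ x) s o i g :=
  lb_ms h i g

end GTm
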